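import Pool.Agent.H33.Pid5

set_option autoImplicit false

namespace Pool.Agent.Results.MP_f7573e_al.Neg

open Pool.Agent.H33.Pid in
theorem result : ∃ (R : Type) (_ : NonUnitalRing R) (f : FreeSemigroup (Fin 5) →₀ ℤ),
    (∀ w ∈ f.support, w.length ≤ 5) ∧ (∃ w ∈ f.support, w.length = 5) ∧
    (∀ n : ℤ, (∀ w, n ∣ f w) → IsUnit n) ∧
    (∀ r : Fin 5 → R, (f.sum fun w c => c • FreeSemigroup.lift r w) = 0) ∧
    ∀ α : Equiv.Perm (Fin 5) → ℤ,
      (∀ x : Fin 5 → R,
        ∑ σ, α σ • (x (σ 0) * x (σ 1) * x (σ 2) * x (σ 3) * x (σ 4)) = 0) →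
      ∀ σ, Even (α σ) ∧ α σ ≠ 1 := by
  have ap : ∀ (p : List (Wd × ℕ)) (w : Wd),
      (p.map fun q => Finsupp.single q.1 (q.2 : ℤ)).sum w =
        ((p.map fun q => if q.1 = w then q.2 else 0).sum : ℕ) := by
    intro p w
    induction p with
    | nil => simp
    | cons q p ih =>
      simp only [List.map_cons, List.sum_cons, Finsupp.add_apply, ih, Finsupp.single_apply]
      push_cast
      rfl
  refine ⟨Q, inferInstance, (fL.map fun q => Finsupp.single q.1 (q.2 : ℤ)).sum, ?_, ?_, ?_, ?_, ?_⟩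
  · have h1 : ∀ q ∈ fL, q.1.length ≤ 5 := by decide +kernel
    generalize fL = p at h1
    intro w hw
    by_contra hc
    rw [Finsupp.mem_support_iff, ap] at hw
    apply hw
    rw [List.sum_eq_zero, Nat.cast_zero]
    intro x hx
    obtain ⟨q, hq, rfl⟩ := List.mem_map.1 hx
    rw [if_neg]
    rintro rfl
    exact hc (h1 q hq)
  · refine ⟨⟨0, [0, 1, 2, 3]⟩, ?_, rfl⟩
    have : (fL.map fun q => if q.1 = ⟨0, [0, 1, 2, 3]⟩ then q.2 else 0).sum = 2 := by
      decide +kernel
    rw [Finsupp.mem_support_iff, ap, this]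
    decide
  · have h1 : (fL.map fun q => if q.1 = ⟨0, [1, 2, 3]⟩ then q.2 else 0).sum = 1 := by
      decide +kernel
    generalize fL = p at h1
    intro n hn
    have := hn ⟨0, [1, 2, 3]⟩
    rw [ap, h1] at this
    exact isUnit_of_dvd_one this
  · intro r
    rw [← ev_Q r]
    generalize fL = p
    induction p with
    | nil => simp [ev]
    | cons q p ih =>
      rw [List.map_cons, List.sum_cons, Finsupp.sum_add_index' (by simp) (by simp [add_smul]), ih,
        Finsupp.sum_single_index (by simp)]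
      simp [ev]
  · intro α h σ
    have := noml α h σ
    exact ⟨this, fun h1 => by rw [h1] at this; exact absurd this (by decide)⟩

end Pool.Agent.Results.MP_f7573e_al.Neg
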